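import Pool.Agent.Run7.h560.AP.Forms2

set_option autoImplicit false

/-!
# Common offsets of several powers of two
-/

namespace Pool.Agent.Results.MP_78b39f_nt.CommonOffsets

open Finset
open Pool.Agent.Run7.h560.AP

/-- the number of the residue classes `k` modulo `p` for which `p` divides one of the numbers `2 ^ (m i) + k` -/
noncomputable def roots {r : ℕ} (m : Fin r → ℕ) (p : ℕ) : ℕ := Set.ncard {k : ℕ | k < p ∧ p ∣ ∏ i, (2 ^ m i + k)}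

/-- the density `∏ (1 - roots(p) / p)` over the primes `p ≤ x` -/
noncomputable def dens {r : ℕ} (m : Fin r → ℕ) (x : ℕ) : ℝ :=
  ∏ p ∈ (range (x + 1)).filter Nat.Prime, (1 - (roots m p : ℝ) / p)

/-- the constants of the forms -/
def fc {r : ℕ} (m : Fin r → ℕ) : Fin r → ℤ := fun i => ((2 ^ m i : ℕ) : ℤ)

/-- the coefficients of the forms -/
def fa (r : ℕ) : Fin r → ℤ := fun _ => 1

lemma fval {r : ℕ} (m : Fin r → ℕ) (k : ℕ) (i : Fin r) : fa r i * (k : ℤ) + fc m i = ((2 ^ m i + k : ℕ) : ℤ) := by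
  unfold fa fc
  push_cast
  ring

lemma fprod {r : ℕ} (m : Fin r → ℕ) (k : ℕ) : ∏ i, (fa r i * k + fc m i) = ((∏ i, (2 ^ m i + k) : ℕ) : ℤ) := by
  simp only [fval]
  rw [← Nat.cast_prod]

lemma rho_roots {r : ℕ} (m : Fin r → ℕ) (p : ℕ) : rho (fa r) (fc m) p = roots m p := by
  rw [rho_ncard (fa r) (fc m) p _ (fprod m)]
  unfold roots
  congr 1
  ext n
  rw [Set.mem_ofPred_eq, Set.mem_ofPred_eq, Int.natCast_dvd_natCast]

lemma forms_ok {r : ℕ} (m : Fin r → ℕ) : ∀ i, fa r i ≠ 0 ∧ IsCoprime (fa r i) (fc m i) :=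
  fun _ => ⟨one_ne_zero, isCoprime_one_left⟩

lemma admissible {r : ℕ} (m : Fin r → ℕ) (hm : ∀ i, 1 ≤ m i) (p : ℕ) (hp : p.Prime) : rho (fa r) (fc m) p < p := by
  apply rho_lt _ _ p hp
  by_cases h2 : p = 2
  · refine ⟨1, fun i hd => ?_⟩
    rw [fval, Int.natCast_dvd_natCast, h2] at hd
    have h3 : 2 ∣ 2 ^ m i := dvd_pow_self 2 (by have := hm i; omega)
    have h4 := (Nat.dvd_add_right h3).1 hd
    omega
  · refine ⟨0, fun i hd => ?_⟩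
    rw [fval, Int.natCast_dvd_natCast, add_zero] at hd
    have h3 := hp.dvd_of_dvd_pow hd
    exact h2 ((Nat.prime_dvd_prime_iff_eq hp Nat.prime_two).1 h3)

/-- **Main theorem.** -/
theorem result :
    (∀ b : ℕ, 2 ≤ b → ∀ (σ : Type) [Fintype σ] (M : DFA ℕ σ), NonSparse (autoSet b M) → ∀ r : ℕ,
      ∃ (C : ℝ) (x₀ : ℕ), 0 < C ∧ ∀ x : ℕ, x₀ ≤ x → ∀ m : Fin r → ℕ, (∀ i, 1 ≤ m i) →
        (Set.ncard {k : ℕ | k ∈ autoSet b M ∧ k < x ∧ ∀ i, (2 ^ m i + k).Prime} : ℝ) ≤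
          C * below (autoSet b M) x * dens m x) ∧
    (∀ b : ℕ, 2 ≤ b → ∀ S : Finset ℕ, 0 ∈ S → 1 ∈ S → ∀ r D : ℕ, ∃ (R : ℕ) (η c : ℝ) (x₀ : ℕ), 0 < η ∧ 0 < c ∧
      ∀ x : ℕ, x₀ ≤ x → ∀ m : Fin r → ℕ, (∀ i, 1 ≤ m i ∧ 2 ^ m i ≤ x ^ D) →
      (∃ e ∈ S, e < b ∧ ∀ i, Nat.Coprime (2 ^ m i + e) b) →
        c * below (digitSet b S) x * dens m x ≤
          (Set.ncard {k : ℕ | k ∈ digitSet b S ∧ k < x ∧ ∀ i, Almost R ((x : ℝ) ^ η) (2 ^ m i + k)} : ℝ)) ∧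
    (∀ b : ℕ, 2 ≤ b → Odd b → ∀ S : Finset ℕ, 0 ∈ S → 1 ∈ S → ∀ r D : ℕ, ∃ (R : ℕ) (η c : ℝ) (x₀ : ℕ), 0 < η ∧ 0 < c ∧
      ∀ x : ℕ, x₀ ≤ x → ∀ m : Fin r → ℕ, (∀ i, 1 ≤ m i ∧ 2 ^ m i ≤ x ^ D) →
        c * below (digitSet b S) x / Real.log x ^ r ≤
          (Set.ncard {k : ℕ | k ∈ digitSet b S ∧ k < x ∧ ∀ i, Almost R ((x : ℝ) ^ η) (2 ^ m i + k)} : ℝ)) := by
  classical
  have hdens : ∀ (r : ℕ) (m : Fin r → ℕ) (x : ℕ), ∏ p ∈ (range (x + 1)).filter Nat.Prime, (1 - (rho (fa r) (fc m) p : ℝ) / p) = dens m x := by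
    intro r m x
    unfold dens
    apply prod_congr rfl
    intro p _
    rw [rho_roots]
  have hlower : ∀ b : ℕ, 2 ≤ b → ∀ S : Finset ℕ, 0 ∈ S → 1 ∈ S → ∀ r D : ℕ, ∃ (R : ℕ) (η c : ℝ) (x₀ : ℕ), 0 < η ∧ 0 < c ∧
      ∀ x : ℕ, x₀ ≤ x → ∀ m : Fin r → ℕ, (∀ i, 1 ≤ m i ∧ 2 ^ m i ≤ x ^ D) →
      (∃ e ∈ S, e < b ∧ ∀ i, Nat.Coprime (2 ^ m i + e) b) →
        c * below (digitSet b S) x * dens m x ≤
          (Set.ncard {k : ℕ | k ∈ digitSet b S ∧ k < x ∧ ∀ i, Almost R ((x : ℝ) ^ η) (2 ^ m i + k)} : ℝ) := by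
    intro b hb S h0 h1 r D
    obtain ⟨R, η, c₀, N₀, hη, hc₀, h⟩ := digits_lower b hb S h0 h1 r D
    refine ⟨R, η, c₀, N₀ + 1, hη, hc₀, fun x hx m hm he => ?_⟩
    obtain ⟨e, heS, heb, he⟩ := he
    have h2 := h x (by omega) (fa r) (fc m) (fun i => (forms_ok m i).2) (by
      intro i
      have hx1 : 1 ≤ x ^ D := Nat.one_le_pow _ _ (by omega)
      refine ⟨by simpa [fa] using hx1, ?_⟩
      unfold fc
      rw [Int.natAbs_natCast]
      exact (hm i).2) (fun p hp _ => admissible m (fun i => (hm i).1) p hp) ⟨e, heS, heb, by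
      intro i
      rw [fval, Nat.isCoprime_iff_coprime]
      exact he i⟩
    rw [hdens] at h2
    rw [digit_auto, below_cnt]
    refine h2.trans ?_
    rw [Nat.cast_le]
    have h3 := cnt_le_ncard b (dfa S) x
      (fun n => ∀ i, fa r i * n + fc m i ≠ 0 ∧ (fa r i * n + fc m i).natAbs.primeFactorsList.length ≤ R ∧
        ∀ p : ℕ, p.Prime → (p : ℤ) ∣ fa r i * n + fc m i → (x : ℝ) ^ η < p)
      {k : ℕ | k ∈ autoSet b (dfa S) ∧ k < x ∧ ∀ i, Almost R ((x : ℝ) ^ η) (2 ^ m i + k)}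
      (fin_lt x _ (fun n hn => hn.2.1)) ∅ (by
      intro n a1 a2 a3
      left
      refine ⟨a1, a2, fun i => ?_⟩
      obtain ⟨b1, b2, b3⟩ := a3 i
      rw [fval] at b1 b2 b3
      rw [Int.natAbs_natCast] at b2
      exact ⟨by exact_mod_cast b1, b2, fun p hp hpd => b3 p hp (Int.natCast_dvd_natCast.2 hpd)⟩)
    rw [card_empty, add_zero] at h3
    exact h3
  refine ⟨fun b hb σ _ M hM r => ?_, hlower, fun b hb hbo S h0 h1 r D => ?_⟩
  · obtain ⟨C, N₀, hC, h⟩ := sys_upper b hb M (nonsparse b M hM) r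
    refine ⟨C, N₀, hC, fun x hx m hm => ?_⟩
    have h2 := h x hx (fa r) (fc m) (forms_ok m) (fun p hp => admissible m hm p hp)
    rw [hdens] at h2
    rw [below_cnt]
    refine le_trans ?_ h2
    rw [Nat.cast_le]
    apply ncard_le_cnt
    rintro n ⟨a1, a2, a3⟩
    refine ⟨a1, a2, fun i => ?_⟩
    rw [fval, Int.natAbs_natCast]
    exact a3 i
  · obtain ⟨R, η, c, x₀, hη, hc, h⟩ := hlower b hb S h0 h1 r D
    obtain ⟨c₁, hc₁, hl⟩ := prod_low r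
    refine ⟨R, η, c * c₁, x₀ + 2, hη, by positivity, fun x hx m hm => ?_⟩
    have h2 := h x (by omega) m hm ⟨0, h0, by omega, fun i => by
      rw [add_zero]
      apply Nat.Coprime.pow_left
      exact Nat.coprime_two_left.2 hbo⟩
    have h3 := hl (rho (fa r) (fc m)) x (by omega) (fun p hp =>
      ⟨rho_le (fa r) (fc m) (fun i => (forms_ok m i).2) p hp, admissible m (fun i => (hm i).1) p hp⟩)
    have h4 : ∏ p ∈ prs x, (1 - (rho (fa r) (fc m) p : ℝ) / p) = dens m x := hdens r m x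
    rw [h4] at h3
    refine le_trans ?_ h2
    calc c * c₁ * (below (digitSet b S) x : ℝ) / Real.log x ^ r = c * below (digitSet b S) x * (c₁ / Real.log x ^ r) := by ring
      _ ≤ _ := mul_le_mul_of_nonneg_left h3 (by positivity)

end Pool.Agent.Results.MP_78b39f_nt.CommonOffsets
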