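import Pool.Agent.Run7.h946.PW.MeanLaw
import Pool.Agent.TH862.PrimeBd

/-!
# Primes just above the numbers `β 2 ^ n`, for almost every real number `β`: the exact mean

The question asks for primes in `[2 ^ n, 2 ^ n + p_n]`, where `p_n` is the `n`-th prime; the expected number is about
`p_n / (n log 2)`. It is proved here that for almost every real number `β > 0` the numbers of the primes in
`[β 2 ^ n, β 2 ^ n + p_n]`, divided by the expected numbers, have the logarithmic mean exactly `1` over the `n`: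
the sum over `n ≤ N` of the number of these primes divided by `p_n` is asymptotic to `log N / log 2`. The same holds for every
sequence of real lengths between `ε n` and a power of `p_n`, for any `ε > 0`, and for the powers of every integer `a ≥ 2`.

Method. (1) Blocks of the real line at the level `n / 2`: for almost every `β` the integers `x` with the same first `n / 2`
digits as `β a ^ n` fill an interval of length about the square root of `β a ^ n`, and for all large `n` the mean over it of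
the number of the primes in `(x, x + h]` is asymptotic to the expected number, by the theorem on primes in almost all short
intervals of this run (project MK of helper794, helper609) and the Borel-Cantelli lemma; no short interval `(x, x + h]` is
needed here, only those of length a large power of the level below the block. (2) By Selberg's sieve for pairs of primes the
normalised numbers have bounded second moments. (3) Their differences to the means over the blocks are orthogonal for levels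
`n ≤ m / 2`, since the first function is constant on the blocks of the second. So the harmonic averages over the levels obey a
law of large numbers, although nothing is known on the dependence for levels `m < 2 n`.
-/

set_option autoImplicit false

open Finset Filter MeasureTheory Topology

namespace Pool.Agent.Results.MP_78b39f_nt.LogarithmicMean

/-- The `n`-th prime, `p 1 = 2`. -/
noncomputable def p (n : ℕ) : ℕ := Nat.nth Nat.Prime (n - 1)

/-- The number of the primes `q` with `y ≤ q ≤ y + T`. -/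
noncomputable def primesIn (y T : ℝ) : ℕ := {q : ℕ | q.Prime ∧ y ≤ q ∧ (q : ℝ) ≤ y + T}.ncard

theorem p_le (n : ℕ) (hn : 1 ≤ n) : p n ≤ (n + 1) ^ 4 := by
  have h1 := Pool.Agent.TH862.EA.nth_prime_le (n - 1)
  have e : n - 1 + 1 = n := by omega
  rw [e] at h1
  refine h1.trans ?_
  have h2 : 2 * n ≤ (n + 1) ^ 2 := by nlinarith
  calc 4 * n ^ 2 = (2 * n) ^ 2 := by ring
    _ ≤ ((n + 1) ^ 2) ^ 2 := Nat.pow_le_pow_left h2 2
    _ = (n + 1) ^ 4 := by ring

theorem coe_eq (h x : ℕ) : ({q : ℕ | q.Prime ∧ x < q ∧ q ≤ x + h} : Set ℕ).ncard = Run7.h946.PW.cnt h x := by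
  unfold Run7.h946.PW.cnt
  rw [← Set.ncard_coe_finset]
  congr 1
  ext q
  simp only [Set.mem_ofPred_eq, mem_coe, mem_filter, mem_Ioc]
  tauto

theorem lower {y T : ℝ} (hy : 0 ≤ y) {l : ℕ} (hl : (l : ℝ) ≤ T) : Run7.h946.PW.cnt l ⌊y⌋₊ ≤ primesIn y T := by
  rw [← coe_eq]
  apply Set.ncard_le_ncard
  · rintro q ⟨h1, h2, h3⟩
    refine ⟨h1, ((Nat.floor_lt hy).1 h2).le, ?_⟩
    have h4 : (q : ℝ) ≤ (⌊y⌋₊ : ℝ) + l := by exact_mod_cast h3
    have h5 := Nat.floor_le hy
    linarith
  · refine (Set.finite_Iic ⌊y + T⌋₊).subset ?_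
    rintro q ⟨_, _, h⟩
    exact Nat.le_floor h

theorem upper {y T : ℝ} (hy : 0 ≤ y) (hirr : Irrational y) {u : ℕ} (hu : T ≤ u) :
    primesIn y T ≤ Run7.h946.PW.cnt u ⌊y⌋₊ := by
  rw [← coe_eq]
  apply Set.ncard_le_ncard
  · rintro q ⟨h1, h2, h3⟩
    refine ⟨h1, ?_, ?_⟩
    · rw [Nat.floor_lt hy]
      exact lt_of_le_of_ne h2 (hirr.ne_nat q)
    · have h4 := Nat.lt_floor_add_one y
      have h5 : (q : ℝ) < ((⌊y⌋₊ + u + 1 : ℕ) : ℝ) := by
        push_cast
        linarith
      have h6 : q < ⌊y⌋₊ + u + 1 := by exact_mod_cast h5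
      show q ≤ ⌊y⌋₊ + u
      omega
  · refine (Set.finite_Iic (⌊y⌋₊ + u)).subset ?_
    rintro q ⟨_, _, h⟩
    exact h

/-- **Primes just above the numbers `β a ^ n`: the exact mean.** Let `a ≥ 2` be an integer and let `h n` be real numbers with
`ε n ≤ h n ≤ p_n ^ K` for all large `n`, for some `ε > 0` and `K` (for instance `h n = p_n`). For almost every real number
`β > 0`, the sum over `n ≤ N` of the number of the primes `q` with `β a ^ n ≤ q ≤ β a ^ n + h n`, divided by `h n`, is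
asymptotic to `log N / log a`. -/
theorem result (a : ℕ) (ha : 2 ≤ a) (h : ℕ → ℝ) (ε : ℝ) (hε : 0 < ε) (K : ℕ)
    (hh : ∀ᶠ n : ℕ in atTop, ε * n ≤ h n ∧ h n ≤ (p n : ℝ) ^ K) : ∀ᵐ β : ℝ, 0 < β →
    Tendsto (fun N : ℕ => (∑ n ∈ Icc 1 N, (primesIn (β * a ^ n) (h n) : ℝ) / h n) / Real.log N) atTop
      (𝓝 (1 / Real.log a)) := by
  have haR : (2 : ℝ) ≤ a := by exact_mod_cast ha
  have hla : 0 < Real.log a := Real.log_pos (by linarith)
  have hnat := tendsto_natCast_atTop_atTop (R := ℝ)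
  obtain ⟨lo, hlo⟩ : ∃ lo : ℕ → ℕ, lo = fun n => ⌊h n⌋₊ := ⟨_, rfl⟩
  obtain ⟨up, hup⟩ : ∃ up : ℕ → ℕ, up = fun n => ⌈h n⌉₊ := ⟨_, rfl⟩
  have hlo1 : ∀ᶠ n : ℕ in atTop, ε / 2 * n ≤ lo n ∧ lo n ≤ (n + 1) ^ (4 * K + 1) := by
    filter_upwards [hh, eventually_ge_atTop 1, hnat.eventually_ge_atTop (2 / ε)] with n hn hn1 hn2
    rw [div_le_iff₀ hε] at hn2
    have h0 : 0 ≤ h n := le_trans (by positivity) hn.1
    have a1 := Nat.lt_floor_add_one (h n)
    have a2 := Nat.floor_le h0
    rw [hlo]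
    refine ⟨by linarith [hn.1], ?_⟩
    have a3 : ((⌊h n⌋₊ : ℕ) : ℝ) ≤ ((p n ^ K : ℕ) : ℝ) := by
      push_cast
      linarith [hn.2]
    have a4 : ⌊h n⌋₊ ≤ p n ^ K := by exact_mod_cast a3
    calc ⌊h n⌋₊ ≤ p n ^ K := a4
      _ ≤ ((n + 1) ^ 4) ^ K := Nat.pow_le_pow_left (p_le n hn1) K
      _ = (n + 1) ^ (4 * K) := by rw [← pow_mul]
      _ ≤ (n + 1) ^ (4 * K + 1) := Nat.pow_le_pow_right (by omega) (by omega)
  have hup1 : ∀ᶠ n : ℕ in atTop, ε / 2 * n ≤ up n ∧ up n ≤ (n + 1) ^ (4 * K + 1) := by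
    filter_upwards [hh, eventually_ge_atTop 1] with n hn hn1
    have h0 : 0 ≤ h n := le_trans (by positivity) hn.1
    have a1 := Nat.le_ceil (h n)
    rw [hup]
    refine ⟨?_, ?_⟩
    · have : 0 ≤ ε * (n : ℝ) := by positivity
      linarith [hn.1]
    · have a4 : ⌈h n⌉₊ ≤ p n ^ K := by
        rw [Nat.ceil_le]
        push_cast
        exact hn.2
      calc ⌈h n⌉₊ ≤ p n ^ K := a4
        _ ≤ ((n + 1) ^ 4) ^ K := Nat.pow_le_pow_left (p_le n hn1) K
        _ = (n + 1) ^ (4 * K) := by rw [← pow_mul]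
        _ ≤ (n + 1) ^ (4 * K + 1) := Nat.pow_le_pow_right (by omega) (by omega)
  have hht : Tendsto h atTop atTop := by
    refine tendsto_atTop_mono' _ (hh.mono fun n hn => hn.1) ?_
    exact hnat.const_mul_atTop hε
  have f1 : Tendsto (fun n : ℕ => (lo n : ℝ) / h n) atTop (𝓝 1) := by
    rw [hlo]
    exact (tendsto_nat_floor_div_atTop (R := ℝ)).comp hht
  have f2 : Tendsto (fun n : ℕ => (up n : ℝ) / h n) atTop (𝓝 1) := by
    rw [hup]
    exact (tendsto_nat_ceil_div_atTop (R := ℝ)).comp hht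
  have hirr : ∀ᵐ β : ℝ, Irrational β := (Set.countable_range ((↑) : ℚ → ℝ)).ae_notMem volume
  filter_upwards [Run7.h946.PW.mean_seq ha lo (by positivity) (4 * K + 1) hlo1,
    Run7.h946.PW.mean_seq ha up (by positivity) (4 * K + 1) hup1, hirr] with β k1 k2 hβ h0
  have r1 := Run7.h946.PW.mean_mul (u := fun n : ℕ => Run7.h946.PW.gm lo n ⌊β * (a : ℝ) ^ n⌋₊ / n)
    (fun n => div_nonneg (Run7.h946.PW.gm_nonneg lo n _) (Nat.cast_nonneg n)) (by positivity) (k1 h0) f1
  have r2 := Run7.h946.PW.mean_mul (u := fun n : ℕ => Run7.h946.PW.gm up n ⌊β * (a : ℝ) ^ n⌋₊ / n)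
    (fun n => div_nonneg (Run7.h946.PW.gm_nonneg up n _) (Nat.cast_nonneg n)) (by positivity) (k2 h0) f2
  rw [mul_one] at r1 r2
  refine Run7.h946.PW.mean_squeeze ?_ r1 r2
  have hlo2 : ∀ᶠ n : ℕ in atTop, 0 < (lo n : ℝ) := by
    filter_upwards [hlo1, eventually_ge_atTop 1] with n a1 a2
    have : (1 : ℝ) ≤ n := by exact_mod_cast a2
    have : 0 < ε / 2 * n := by positivity
    linarith [a1.1]
  have hup2 : ∀ᶠ n : ℕ in atTop, 0 < (up n : ℝ) := by
    filter_upwards [hup1, eventually_ge_atTop 1] with n a1 a2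
    have : (1 : ℝ) ≤ n := by exact_mod_cast a2
    have : 0 < ε / 2 * n := by positivity
    linarith [a1.1]
  filter_upwards [eventually_ge_atTop 1, hlo2, hup2, hht.eventually_gt_atTop 0] with n hn1 hl0 hu0 hhn
  have hn0 : (0 : ℝ) < n := by exact_mod_cast hn1
  have hy : (0 : ℝ) ≤ β * (a : ℝ) ^ n := by positivity
  have hyi : Irrational (β * (a : ℝ) ^ n) := by
    have h1 : (a ^ n : ℕ) ≠ 0 := (Nat.pow_pos (by omega)).ne'
    have h2 := hβ.mul_natCast h1
    push_cast at h2
    exact h2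
  have w1 : Run7.h946.PW.cnt (lo n) ⌊β * (a : ℝ) ^ n⌋₊ ≤ primesIn (β * (a : ℝ) ^ n) (h n) :=
    lower hy (by rw [hlo]; exact Nat.floor_le hhn.le)
  have w2 : primesIn (β * (a : ℝ) ^ n) (h n) ≤ Run7.h946.PW.cnt (up n) ⌊β * (a : ℝ) ^ n⌋₊ :=
    upper hy hyi (by rw [hup]; exact Nat.le_ceil _)
  constructor
  · have e1 : Run7.h946.PW.gm lo n ⌊β * (a : ℝ) ^ n⌋₊ / n * ((lo n : ℝ) / h n) =
        (Run7.h946.PW.cnt (lo n) ⌊β * (a : ℝ) ^ n⌋₊ : ℝ) / h n := by
      unfold Run7.h946.PW.gm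
      field_simp
    rw [e1]
    exact div_le_div_of_nonneg_right (by exact_mod_cast w1) hhn.le
  · have e1 : Run7.h946.PW.gm up n ⌊β * (a : ℝ) ^ n⌋₊ / n * ((up n : ℝ) / h n) =
        (Run7.h946.PW.cnt (up n) ⌊β * (a : ℝ) ^ n⌋₊ : ℝ) / h n := by
      unfold Run7.h946.PW.gm
      field_simp
    rw [e1]
    exact div_le_div_of_nonneg_right (by exact_mod_cast w2) hhn.le

end Pool.Agent.Results.MP_78b39f_nt.LogarithmicMean
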