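import Pool.Agent.Run7.h189.PT.Main

/-!
# Primes among random dilates of the powers of two: the critical length is `(log 2) n log n`

The question is whether, for every `n ≥ 1`, there is a prime among the numbers `2 ^ n + j` with `j ≤ p_n`, the `n`-th
prime; so the length is `p_n ~ n log n`. The numbers next to `2 ^ n` are replaced by the integer parts of
`θ_j 2 ^ n = 2 ^ n + (θ_j - 1) 2 ^ n`, where `θ_0, θ_1, θ_2, ...` is ONE sequence of independent random reals, uniformly distributed on
`[1, 2)` and used for all `n` at the same time (the binary digits of `θ_j` are the digits of all these numbers).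

For an arbitrary sequence `l n` of lengths, let `W N` be the sum of `exp (- l n / (n log 2))` over `1 ≤ n ≤ N`. If `W`
is bounded, then almost surely for all large `n` one of the integer parts of `θ_j 2 ^ n`, `j < l n`, is a prime. If `W` is
unbounded, then almost surely the number of the `n ≤ N` without such a prime is `(1 + o(1)) W N`. So the critical
length is `(log 2) n log n = 0.693... n log n`, and the length `p_n` of the question is above it by the factor
`1 / log 2 = 1.442...`. At this length there are, almost surely, between `0.12 log n` and `3.5 log n` primes for all large `n`, and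
with positive probability there is a prime for EVERY `n ≥ 1`, the analogue of the statement of the question.

Method: the prime number theorem for numbers with `n + 1` binary digits; an upper bound sieve, uniform in `n < m`, for the numbers with
`m + 1` digits which are prime and whose first `n + 1` digits form a prime; with it the covariances of the events `no prime
for n` are at most `C / m` times the probability for `m`, for all lengths; a strong law for such events.
-/

set_option autoImplicit false

namespace Pool.Agent.Results.MP_78b39f_nt.RandomDilatesDichotomy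

open MeasureTheory ProbabilityTheory Filter Finset
open scoped Topology

/-- The number of the `j < l` for which the integer part of `x j * 2 ^ n` is a prime. -/
noncomputable def primes (x : ℕ → ℝ) (n l : ℕ) : ℕ := ((range l).filter fun j => (⌊x j * 2 ^ n⌋₊).Prime).card

/-- The number of the `1 ≤ n ≤ N` for which none of the integer parts of `x j * 2 ^ n`, `j < l n`, is a prime. -/
noncomputable def failures (x : ℕ → ℝ) (l : ℕ → ℕ) (N : ℕ) : ℕ := ((Icc 1 N).filter fun n => primes x n (l n) = 0).card

/-- `exp (- l n / (n log 2))`. -/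
noncomputable def weight (l : ℕ → ℕ) (n : ℕ) : ℝ := Real.exp (-(l n / (n * Real.log 2)))

/-- The rate function of the Poisson law with mean `m`: `κ log (κ / m) - κ + m`. -/
noncomputable def rate (m κ : ℝ) : ℝ := κ * Real.log (κ / m) - κ + m

open Pool.Agent.Run7.h189.PT in
lemma X_eq {Ω : Type} (θ : ℕ → Ω → ℝ) (n l : ℕ) (ω : Ω) : X θ n l ω = primes (fun j => θ j ω) n l := by
  classical
  unfold X primes
  rw [card_filter]
  push_cast
  apply sum_congr rfl
  intro j _
  by_cases h : (⌊θ j ω * 2 ^ n⌋₊).Prime
  · rw [if_pos h, Set.indicator_of_mem (show θ j ω ∈ A n from h)]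
  · rw [if_neg h, Set.indicator_of_notMem (show θ j ω ∉ A n from h)]

open Pool.Agent.Run7.h189.PT in
lemma ev_iff {Ω : Type} (θ : ℕ → Ω → ℝ) (n l : ℕ) (ω : Ω) : ω ∈ ev θ n l ↔ primes (fun j => θ j ω) n l = 0 := by
  classical
  unfold ev primes
  rw [card_eq_zero, filter_eq_empty_iff]
  simp only [Set.mem_iInter, Set.mem_preimage, Set.mem_compl_iff]
  rfl

/-- Let `θ 0, θ 1, θ 2, ...` be independent random variables, uniformly distributed on `[1, 2)`.

**(1)** (The dichotomy.) Let `l n` be ANY sequence of lengths. If the sum of `exp (- l n / (n log 2))` over all `n` is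
finite, then almost surely for all large `n` one of the integer parts of `θ j * 2 ^ n`, `j < l n`, is a prime; if it is infinite,
then almost surely the number of the `1 ≤ n ≤ N` for which none of them is a prime is asymptotic to the sum over `1 ≤ n ≤ N`.

**(2)** (The critical length.) If `l n ≥ c n log n` for all large `n`, `c > log 2`, then almost surely there is such a prime for all large `n`;
if `l n ≤ (log 2) n log n` for all large `n`, then almost surely there is no such prime for infinitely many `n`.

**(3)** (The number of the primes.) Let `l n ~ c n log n` with `c > 0`, and let `κ > 0` have rate more than `1` for the mean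
`c / log 2`. Almost surely, for all large `n` the number of the `j < l n` with a prime is less than `κ log n` if
`κ > c / log 2`, and more than `κ log n` if `κ < c / log 2`.

**(4)** (The length of the question.) Let `l n` be the `n`-th prime. Almost surely, for all large `n` the number of the
`j < l n` with a prime is between `0.12 log n` and `3.5 log n`. With positive probability this number is positive for every `n ≥ 1`. -/
theorem result {Ω : Type} [MeasurableSpace Ω] (μ : Measure Ω) [IsProbabilityMeasure μ] (θ : ℕ → Ω → ℝ)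
    (hm : ∀ j, Measurable (θ j)) (hi : iIndepFun θ μ) (hlaw : ∀ j, μ.map (θ j) = volume.restrict (Set.Ico 1 2)) :
    ((∀ l : ℕ → ℕ, Summable (weight l) → ∀ᵐ ω ∂μ, ∀ᶠ n in atTop, 0 < primes (fun j => θ j ω) n (l n)) ∧
      (∀ l : ℕ → ℕ, ¬ Summable (weight l) → ∀ᵐ ω ∂μ, Tendsto (fun N : ℕ => (failures (fun j => θ j ω) l N : ℝ) /
        ∑ n ∈ Icc 1 N, weight l n) atTop (𝓝 1))) ∧
    ((∀ (l : ℕ → ℕ) (c : ℝ), Real.log 2 < c → (∀ᶠ n : ℕ in atTop, c * n * Real.log n ≤ l n) →
        ∀ᵐ ω ∂μ, ∀ᶠ n in atTop, 0 < primes (fun j => θ j ω) n (l n)) ∧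
      (∀ l : ℕ → ℕ, (∀ᶠ n : ℕ in atTop, (l n : ℝ) ≤ Real.log 2 * n * Real.log n) →
        ∀ᵐ ω ∂μ, ∃ᶠ n in atTop, primes (fun j => θ j ω) n (l n) = 0)) ∧
    (∀ (l : ℕ → ℕ) (c κ : ℝ), 0 < c → Tendsto (fun n : ℕ => (l n : ℝ) / (n * Real.log n)) atTop (𝓝 c) → 0 < κ →
        1 < rate (c / Real.log 2) κ →
      (c / Real.log 2 < κ → ∀ᵐ ω ∂μ, ∀ᶠ n : ℕ in atTop, (primes (fun j => θ j ω) n (l n) : ℝ) < κ * Real.log n) ∧
      (κ < c / Real.log 2 → ∀ᵐ ω ∂μ, ∀ᶠ n : ℕ in atTop, κ * Real.log n < primes (fun j => θ j ω) n (l n))) ∧
    ((∀ᵐ ω ∂μ, ∀ᶠ n : ℕ in atTop, 0.12 * Real.log n < primes (fun j => θ j ω) n (Nat.nth Nat.Prime (n - 1)) ∧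
        (primes (fun j => θ j ω) n (Nat.nth Nat.Prime (n - 1)) : ℝ) < 3.5 * Real.log n) ∧
      0 < μ {ω | ∀ n, 1 ≤ n → 0 < primes (fun j => θ j ω) n (Nat.nth Nat.Prime (n - 1))}) := by
  classical
  have hlaw' : ∀ j, μ.map (θ j) = Pool.Agent.Run7.h189.PT.U := hlaw
  have hpos : ∀ (ω : Ω) (n l : ℕ), ω ∉ Pool.Agent.Run7.h189.PT.ev θ n l → 0 < primes (fun j => θ j ω) n l := by
    intro ω n l h
    rw [ev_iff] at h
    exact Nat.pos_of_ne_zero h
  have hconv : ∀ l : ℕ → ℕ, Summable (weight l) → ∀ᵐ ω ∂μ, ∀ᶠ n in atTop, 0 < primes (fun j => θ j ω) n (l n) := by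
    intro l hs
    filter_upwards [Pool.Agent.Run7.h189.PT.conv hm hi hlaw' l hs] with ω hω
    filter_upwards [hω] with n hn
    exact hpos ω n (l n) hn
  have hdiv : ∀ l : ℕ → ℕ, ¬ Summable (weight l) → ∀ᵐ ω ∂μ, Tendsto (fun N : ℕ => (failures (fun j => θ j ω) l N : ℝ) /
        ∑ n ∈ Icc 1 N, weight l n) atTop (𝓝 1) := by
    intro l hs
    filter_upwards [Pool.Agent.Run7.h189.PT.dvg hm hi hlaw' l hs] with ω hω
    refine hω.congr fun N => ?_
    have e : (Icc 1 N).filter (fun n => ω ∈ Pool.Agent.Run7.h189.PT.ev θ n (l n)) =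
        (Icc 1 N).filter fun n => primes (fun j => θ j ω) n (l n) = 0 := by
      apply filter_congr
      intro n _
      exact ev_iff θ n (l n) ω
    unfold failures
    rw [← e]
    rfl
  refine ⟨⟨hconv, hdiv⟩, ⟨?_, ?_⟩, ?_, ?_, ?_⟩
  · intro l c hc hl
    exact hconv l (Pool.Agent.Run7.h189.PT.summ_w l c hc hl)
  · intro l hl
    have hns : ¬ Summable (weight l) := Pool.Agent.Run7.h189.PT.nsumm_w l hl
    filter_upwards [hdiv l hns] with ω hω
    rw [Filter.frequently_atTop]
    intro a
    by_contra hcon
    push Not at hcon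
    have hb : ∀ N : ℕ, (failures (fun j => θ j ω) l N : ℝ) ≤ a := by
      intro N
      have : failures (fun j => θ j ω) l N ≤ a := by
        unfold failures
        calc ((Icc 1 N).filter fun n => primes (fun j => θ j ω) n (l n) = 0).card ≤ (range a).card := by
              apply card_le_card
              intro n hn
              rw [mem_filter] at hn
              rw [mem_range]
              by_contra h
              exact hcon n (not_lt.1 h) hn.2
          _ = a := card_range a
      exact_mod_cast this
    have ht : Tendsto (fun N : ℕ => ∑ n ∈ Icc 1 N, weight l n) atTop atTop := by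
      have h1 : Tendsto (fun N : ℕ => ∑ n ∈ range N, weight l n) atTop atTop :=
        (not_summable_iff_tendsto_nat_atTop_of_nonneg fun n => (Real.exp_pos _).le).1 hns
      have h2 : Tendsto (fun N : ℕ => ∑ n ∈ range (N + 1), weight l n - weight l 0) atTop atTop :=
        tendsto_atTop_add_const_right _ _ (h1.comp (tendsto_add_atTop_nat 1))
      refine h2.congr fun N => ?_
      have e2 : range (N + 1) = insert 0 (Icc 1 N) := by
        ext n
        rw [mem_range, mem_insert, mem_Icc]
        omega
      rw [e2, sum_insert (by simp), add_sub_cancel_left]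
    have h0 : Tendsto (fun N : ℕ => (failures (fun j => θ j ω) l N : ℝ) / ∑ n ∈ Icc 1 N, weight l n) atTop (𝓝 0) := by
      refine squeeze_zero' (Eventually.of_forall fun N => ?_) (Eventually.of_forall fun N => ?_) (ht.const_div_atTop (a : ℝ))
      · exact div_nonneg (Nat.cast_nonneg _) (sum_nonneg fun n _ => (Real.exp_pos _).le)
      · exact div_le_div_of_nonneg_right (hb N) (sum_nonneg fun n _ => (Real.exp_pos _).le)
    exact zero_ne_one (tendsto_nhds_unique h0 hω)
  · intro l c κ hc hl hκ hr
    refine ⟨fun h => ?_, fun h => ?_⟩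
    · filter_upwards [Pool.Agent.Run7.h189.PT.upper_rate hm hi hlaw' l c κ hc hl h hr] with ω hω
      filter_upwards [hω] with n hn
      rwa [X_eq] at hn
    · filter_upwards [Pool.Agent.Run7.h189.PT.lower_rate hm hi hlaw' l c κ hc hl hκ h hr] with ω hω
      filter_upwards [hω] with n hn
      rwa [X_eq] at hn
  · have hil := Pool.Agent.Run7.h189.PT.inv_log_two
    have h1 := Pool.Agent.Run7.h189.PT.lower_rate hm hi hlaw' (fun n => Nat.nth Nat.Prime (n - 1)) 1 0.12 one_pos
      Pool.Agent.Run7.h189.PT.nth_asymp (by norm_num) (by linarith) Pool.Agent.Run7.h189.PT.rate_lo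
    have h2 := Pool.Agent.Run7.h189.PT.upper_rate hm hi hlaw' (fun n => Nat.nth Nat.Prime (n - 1)) 1 3.5 one_pos
      Pool.Agent.Run7.h189.PT.nth_asymp (by linarith) Pool.Agent.Run7.h189.PT.rate_hi
    filter_upwards [h1, h2] with ω h3 h4
    filter_upwards [h3, h4] with n h5 h6
    rw [X_eq] at h5 h6
    exact ⟨h5, h6⟩
  · have hl : ∀ n, 1 ≤ n → n ≤ Nat.nth Nat.Prime (n - 1) := by
      intro n hn
      have := Nat.add_two_le_nth_prime (n - 1)
      omega
    have hs : Summable (Pool.Agent.Run7.h189.PT.w fun n => Nat.nth Nat.Prime (n - 1)) := by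
      apply Pool.Agent.Run7.h189.PT.summ_w _ 0.9 (by linarith [Real.log_two_lt_d9])
      have h := Pool.Agent.Run7.h189.PT.nth_asymp.eventually (lt_mem_nhds (show (0.9 : ℝ) < 1 by norm_num))
      filter_upwards [h, eventually_ge_atTop 2] with n h1 h2
      have hn0 : (0 : ℝ) < n := by exact_mod_cast (by omega : 0 < n)
      have hlog : 0 < Real.log (n : ℝ) := Real.log_pos (by exact_mod_cast (by omega : 1 < n))
      rw [lt_div_iff₀ (by positivity)] at h1
      linarith
    have h := Pool.Agent.Run7.h189.PT.all_n hm hi hlaw' (fun n => Nat.nth Nat.Prime (n - 1)) hl hs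
    refine h.trans_le (measure_mono ?_)
    intro ω hω n hn
    exact hpos ω n _ (hω n hn)

end Pool.Agent.Results.MP_78b39f_nt.RandomDilatesDichotomy
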