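import Pool.Agent.Run7.h911.TD3
import Pool.Agent.Run7.h911.TD5

set_option autoImplicit false

/-! # Primes just above typical dilates of powers (helper911)

The proof uses Hoheisel's theorem and the sieve for prime pairs of the starting library, a second moment over cells
of relative length `x ^ (θ - 1)`, and a law for trees of cells. -/

namespace Pool.Agent.Results.MP_78b39f_nt.TypicalDilates

open Filter Finset MeasureTheory

/-- the `n`-th prime, `pr 1 = 2` -/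
noncomputable def pr (n : ℕ) : ℕ := Nat.nth Nat.Prime (n - 1)

/-- the number of primes in the closed interval `[y, y + T]` -/
noncomputable def primesIn (y T : ℝ) : ℕ := {p : ℕ | p.Prime ∧ y ≤ p ∧ (p : ℝ) ≤ y + T}.ncard

/-- the `n` such that `[θ a ^ n, θ a ^ n + pr n]` contains at least `c log n` primes -/
def Rich (a : ℕ) (c θ : ℝ) : Set ℕ := {n | c * Real.log n ≤ primesIn (θ * (a : ℝ) ^ n) (pr n)}

open Run7.h911.TD in
lemma pc_le (y : ℝ) (hy : 0 ≤ y) (T : ℕ) :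
    Pool.Agent.H357R2.SI.pc ⌊y⌋₊ (⌊y⌋₊ + T) ≤ primesIn y T := by
  classical
  have hfin : ({p : ℕ | p.Prime ∧ y ≤ p ∧ (p : ℝ) ≤ y + T}).Finite := by
    refine (Set.finite_Iic ⌊y + T⌋₊).subset ?_
    rintro p ⟨_, _, h⟩
    exact Nat.le_floor h
  have hsub : (((Ioc ⌊y⌋₊ (⌊y⌋₊ + T)).filter Nat.Prime : Finset ℕ) : Set ℕ) ⊆
      {p : ℕ | p.Prime ∧ y ≤ p ∧ (p : ℝ) ≤ y + T} := by
    intro p hp
    rw [mem_coe, mem_filter, mem_Ioc] at hp
    obtain ⟨⟨h1, h2⟩, h3⟩ := hp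
    refine ⟨h3, ?_, ?_⟩
    · exact (Nat.lt_of_floor_lt h1).le
    · have h4 : (p : ℝ) ≤ (⌊y⌋₊ : ℝ) + T := by exact_mod_cast h2
      have h5 := Nat.floor_le hy
      linarith
  have := Set.ncard_le_ncard hsub hfin
  rw [Set.ncard_coe_finset] at this
  exact this

open Run7.h911.TD in
lemma one (a : ℕ) (ha : 2 ≤ a) : ∃ c : ℝ, 0 < c ∧ ∀ᵐ θ : ℝ, 0 < θ → ∀ᶠ N : ℕ in atTop,
    c * Real.log N ≤ ∑ n ∈ Icc 1 N, (Rich a c θ).indicator (fun n : ℕ => (1 : ℝ) / n) n := by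
  classical
  obtain ⟨L, hL, c, hc0, hc1, hcell⟩ := cells a ha
  have h2L : (1 : ℝ) < ((2 * L : ℕ) : ℝ) := by exact_mod_cast (by omega : 1 < 2 * L)
  have hlog : 0 < Real.log ((2 * L : ℕ) : ℝ) := Real.log_pos h2L
  obtain ⟨c', hc'⟩ : ∃ c' : ℝ, c' = min c (c / (16 * Real.log ((2 * L : ℕ) : ℝ))) := ⟨_, rfl⟩
  have hc'0 : 0 < c' := by rw [hc']; exact lt_min hc0 (by positivity)
  refine ⟨c', hc'0, ?_⟩
  have hC : ∀ J : ℕ, ∃ k₀ : ℕ, Cells a L
      (fun n m => c * Real.log n ≤ (Pool.Agent.H357R2.SI.pc m (m + P n) : ℝ)) c J k₀ := by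
    intro J
    obtain ⟨k₀, hk₀⟩ := hcell J
    refine ⟨k₀, fun k hk i hi1 hi2 n hn => ?_⟩
    refine (hk₀ k hk i hi1 hi2 n hn).trans (le_of_eq ?_)
    have e0 : ({m | m ∈ Ico (i * a ^ (n - k)) ((i + 1) * a ^ (n - k)) ∧
        c * Real.log n ≤ (Pool.Agent.H357R2.SI.pc m (m + P n) : ℝ)} : Set ℕ) =
        (((Ico (i * a ^ (n - k)) ((i + 1) * a ^ (n - k))).filter
          (fun m => c * Real.log n ≤ (Pool.Agent.H357R2.SI.pc m (m + P n) : ℝ)) : Finset ℕ) : Set ℕ) := by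
      ext m; simp
    rw [e0, Set.ncard_coe_finset]
  filter_upwards [law ha hL hc0 hc1 hC] with θ hθ hpos
  have hS : ∀ n : ℕ, (fun n m : ℕ => c * Real.log n ≤ (Pool.Agent.H357R2.SI.pc m (m + P n) : ℝ)) n
      ⌊θ * (a : ℝ) ^ n⌋₊ → n ∈ Rich a c' θ := by
    intro n hn
    beta_reduce at hn
    have h1 := pc_le (θ * (a : ℝ) ^ n) (by positivity) (P n)
    have h2 : ((Pool.Agent.H357R2.SI.pc ⌊θ * (a : ℝ) ^ n⌋₊ (⌊θ * (a : ℝ) ^ n⌋₊ + P n) : ℕ) : ℝ) ≤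
        (primesIn (θ * (a : ℝ) ^ n) (P n) : ℝ) := by exact_mod_cast h1
    have h3 : c' * Real.log n ≤ c * Real.log n := by
      refine mul_le_mul_of_nonneg_right ?_ (Real.log_natCast_nonneg n)
      rw [hc']; exact min_le_left _ _
    exact h3.trans (hn.trans h2)
  filter_upwards [hθ hpos (Rich a c' θ) hS] with N hN
  refine le_trans ?_ hN
  refine mul_le_mul_of_nonneg_right ?_ (Real.log_natCast_nonneg N)
  rw [hc']; exact min_le_right _ _

/-- **Theorem.** For every base `a ≥ 2` there is `c a > 0` such that for almost every `θ > 0` and all `a`, for all large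
`N` the sum of `1/n` over the `n ≤ N` such that `[θ a ^ n, θ a ^ n + pr n]` contains at least `c a * log n` primes is at
least `c a * log N`. -/
theorem result : ∃ c : ℕ → ℝ, (∀ a, 0 < c a) ∧ ∀ᵐ θ : ℝ, 0 < θ → ∀ a : ℕ, 2 ≤ a → ∀ᶠ N : ℕ in atTop,
    c a * Real.log N ≤ ∑ n ∈ Icc 1 N, (Rich a (c a) θ).indicator (fun n : ℕ => (1 : ℝ) / n) n := by
  classical
  have h : ∀ a : ℕ, ∃ c : ℝ, 0 < c ∧ (2 ≤ a → ∀ᵐ θ : ℝ, 0 < θ → ∀ᶠ N : ℕ in atTop,
      c * Real.log N ≤ ∑ n ∈ Icc 1 N, (Rich a c θ).indicator (fun n : ℕ => (1 : ℝ) / n) n) := by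
    intro a
    by_cases ha : 2 ≤ a
    · obtain ⟨c, hc, h⟩ := one a ha
      exact ⟨c, hc, fun _ => h⟩
    · exact ⟨1, one_pos, fun h => absurd h ha⟩
  choose c hc h using h
  refine ⟨c, hc, ?_⟩
  have hall : ∀ᵐ θ : ℝ, ∀ a : ℕ, 2 ≤ a → 0 < θ → ∀ᶠ N : ℕ in atTop,
      c a * Real.log N ≤ ∑ n ∈ Icc 1 N, (Rich a (c a) θ).indicator (fun n : ℕ => (1 : ℝ) / n) n := by
    rw [ae_all_iff]
    intro a
    by_cases ha : 2 ≤ a
    · filter_upwards [h a ha] with θ hθ _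
      exact hθ
    · exact Eventually.of_forall fun θ h => absurd h ha
  filter_upwards [hall] with θ hθ hpos a ha
  exact hθ a ha hpos

end Pool.Agent.Results.MP_78b39f_nt.TypicalDilates
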